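import Pool.Agent.Lib.EcW.Limit
import Pool.Agent.Lib.EcW.Final
import Pool.Agent.Lib.EcB.Count

/-!
# `g(k,n)/n → (k-1)/2` for every `k ≥ 93`

Upper bound: `Pool.Agent.Lib.EcW.final` (a planar set in general position with at least `((k-1)/2 + ε) n` points
contains an `n`-subset with at least `k` hull vertices, for `n` large). Lower bound: `Pool.Agent.Lib.EcB.lower`
(the configuration of Károlyi and Tóth). `Pool.Agent.Lib.EcW.tendsto_of_bounds` joins them.
-/

set_option autoImplicit false

namespace Pool.Agent.Results.MP_ec6744_co.LargeKLimit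

/-- `N` has the property of the problem for `k` and `n`: every planar set of `N` points, no three
on a line, has an `n`-element subset whose convex hull has at least `k` vertices. -/
def Good (k n N : ℕ) : Prop :=
  ∀ S : Finset (EuclideanSpace ℝ (Fin 2)), S.card = N →
    (∀ a ∈ S, ∀ b ∈ S, ∀ c ∈ S, a ≠ b → a ≠ c → b ≠ c →
      ¬ Collinear ℝ ({a, b, c} : Set (EuclideanSpace ℝ (Fin 2)))) →
    ∃ T : Finset (EuclideanSpace ℝ (Fin 2)), T ⊆ S ∧ T.card = n ∧
      k ≤ ({p : EuclideanSpace ℝ (Fin 2) | p ∈ T ∧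
            p ∉ convexHull ℝ ((T : Set (EuclideanSpace ℝ (Fin 2))) \ {p})}).ncard

/-- the function `g(k,n)` of the problem -/
noncomputable def g (k n : ℕ) : ℕ := sInf {N : ℕ | Good k n N}

open Pool.Agent.Lib.EcW

/-- For every `k ≥ 93` the quotient `g(k,n)/n` tends to `(k-1)/2`. -/
theorem result : ∀ k : ℕ, 93 ≤ k → Filter.Tendsto (fun n : ℕ => (g k n : ℝ) / (n : ℝ))
      Filter.atTop (nhds (((k : ℝ) - 1) / 2)) :=
  fun k hk => tendsto_of_bounds k (by omega) (final k hk)
    (fun n hn => Pool.Agent.Lib.EcB.lower k n (by omega) hn)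

end Pool.Agent.Results.MP_ec6744_co.LargeKLimit
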